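import Pool.Agent.H189Z.QIP.Main

namespace Pool.Agent.Results.MP_ed7369_lc.AHardness

open Pool.Agent.NPC Pool.Agent.H189Z.QIP

theorem result (p : ℕ) (hp : 2 ≤ p) (ε : ℝ) :
    (∃ A : List Bool → List Bool, PolyTime A ∧ Solves p ε A) →
      ∀ L : Set (List Bool), InNP L → InP L :=
  fun ⟨A, hA, hS⟩ => main hp ε A hA hS

end Pool.Agent.Results.MP_ed7369_lc.AHardness
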